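import Pool.Agent.MP_3ce0a0_al.H79.XS
import Pool.Agent.MP_3ce0a0_al.H79.XJ
import Pool.Agent.MP_3ce0a0_al.H81.Gr

/-
The inequality given by the fixed subgraph of a product of two elements of order three.
-/

namespace Pool.Agent.MP_3ce0a0_al.H14

open Equiv Module Finset Pool.Agent.MP_3ce0a0_al.H62.Inst Pool.Agent.MP_3ce0a0_al.H79.X

namespace XStar

section geo
variable {O H : Type} [Group O] [AddCommGroup H] [Module ℂ H] {π : O →* End ℂ H} (G : Geo π)
  {g y z : O}

lemma ov_comm (h : Commute g y) {ω : G.Ω} (e : G.ov ω = g) : G.ov (G.act y ω) = g := by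
  rw [G.ov_act, e, ← h.eq, mul_inv_cancel_right]

lemma keeps_Φt (h : Commute g y) : Keeps (π y) (G.Φt g) := by
  intro v hv
  have : G.Φt g ≤ (G.Φt g).comap (π y) :=
    iSup_le fun ω => iSup_le fun e => fun w hw =>
      Submodule.mem_iSup_of_mem (G.act y ω)
        (Submodule.mem_iSup_of_mem (ov_comm G h e) (G.Φ_act y ω w hw))
  exact this hv

lemma fx_mul (h : ∀ ω, G.ov ω = g → G.act z ω = ω) : G.fx g (y * z) = G.fx g y := by
  unfold Geo.fx
  refine Nat.card_congr (Equiv.subtypeEquivRight fun ω => and_congr_right fun e => ?_)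
  rw [map_mul, Perm.mul_apply, h ω e]

/-- the action of commuting elements on the components. -/
def ac {Γ : Type} [Group Γ] (χ : Γ →* O) (h : ∀ α, Commute g (χ α)) :
    Γ →* Perm {ω // G.ov ω = g} where
  toFun α := (G.act (χ α)).subtypePerm fun ω => ⟨fun e => by
    have := ov_comm G (h α⁻¹) e
    rwa [← Perm.mul_apply, ← map_mul, ← map_mul, inv_mul_cancel, map_one, map_one] at this,
    ov_comm G (h α)⟩
  map_one' := by ext ω; simp
  map_mul' α β := by ext ω; simp

/-- the permutation representation. -/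
def pr (Ω : Type) : Perm Ω →* End ℂ (Ω → ℂ) where
  toFun s := LinearMap.funLeft ℂ ℂ s.symm
  map_one' := rfl
  map_mul' _ _ := rfl

lemma exists_rep {Γ : Type} [Group Γ] (χ : Γ →* O) (h : ∀ α, Commute g (χ α))
    [Fintype {ω // G.ov ω = g}] : ∃ P : Γ →* End ℂ ({ω // G.ov ω = g} → ℂ),
    (∀ α, LinearMap.trace ℂ _ (P α) = G.fx g (χ α)) ∧ (∀ α, ∃ k, 0 < k ∧ P α ^ k = 1) ∧
    ∀ α, P α = 1 → ∀ ω, G.ov ω = g → G.act (χ α) ω = ω := by
  classical
  refine ⟨(pr _).comp (ac G χ h), fun α => ?_, fun α => ?_, fun α e ω k => ?_⟩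
  · refine (H81.GrAux.tr_perm _).trans (congrArg _ (Nat.card_congr ?_))
    refine (Equiv.subtypeEquivRight fun ω => ?_).trans
      (Equiv.subtypeSubtypeEquivSubtypeInter (fun ω => G.ov ω = g) fun ω => G.act (χ α) ω = ω)
    rw [Equiv.symm_apply_eq, eq_comm, Subtype.ext_iff]
    rfl
  · refine ⟨orderOf (ac G χ h α), orderOf_pos _, ?_⟩
    rw [MonoidHom.comp_apply, ← map_pow, pow_orderOf_eq_one, map_one]
  · have := congrFun (LinearMap.congr_fun e (Pi.single ⟨ω, k⟩ 1)) (ac G χ h α ⟨ω, k⟩)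
    have h2 : (Pi.single (⟨ω, k⟩ : {ω // G.ov ω = g}) 1 : _ → ℂ) (ac G χ h α ⟨ω, k⟩) = 1 := by
      rw [← Module.End.one_apply (R := ℂ) (Pi.single _ _), ← this]
      simp [pr]
    by_contra hne
    rw [Pi.single_eq_of_ne fun e' => hne (congrArg Subtype.val e')] at h2
    exact zero_ne_one h2

end geo

section grp
variable {ι : Type} [DecidableEq ι]

lemma pow_four {σ : Perm ι} (h : σ * σ = 1) (K J : Finset ι) :
    (epJ K * pm σ * epJ J) ^ 4 = 1 := by
  rw [mul_assoc, pm_epJ, ← mul_assoc, epJ_mul]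
  generalize symmDiff K _ = L
  have : (epJ L * pm σ) ^ 2 = epJ (symmDiff L (L.map σ.toEmbedding)) := by
    rw [sq, mul_assoc, ← mul_assoc (pm σ), pm_epJ, mul_assoc, ← map_mul, h, map_one, mul_one,
      epJ_mul]
  rw [show 4 = 2 * 2 from rfl, pow_mul, this, sq, epJ_mul, symmDiff_self]
  exact epJ_empty

variable {H : Type} [AddCommGroup H] [Module ℂ H]

lemma keeps_pm (r : Rep ι H) {σ : Perm ι} {S I : Finset ι} (h : ∀ c, σ c ∈ S → c ∈ S)
    (k : ∀ c, σ c ∈ I ↔ c ∈ I) : Keeps (r (pm σ)) (Sec r S I) := by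
  intro v hv
  rw [Sec, mem_JE] at hv ⊢
  intro c hc
  obtain ⟨d, rfl⟩ := σ.surjective c
  rw [← Module.End.mul_apply, ← map_mul, ← pm_ep, map_mul, Module.End.mul_apply, hv d (h d hc)]
  by_cases e : d ∈ I <;> simp [e, k]

lemma sec_ex {κ : Type} [DecidableEq κ] (r : Rep ι H) (f : κ ↪ ι) (S I : Finset κ) :
    Sec (r.comp (exA f)) S I = Sec r (S.map f) (I.map f) := by
  ext v
  simp only [Sec, mem_JE, MonoidHom.comp_apply, exA_ep, Finset.forall_mem_map, mem_map']

lemma sign_flip {I J : Finset ι} {e f : ι} (he : e ∈ I) (hf : f ∉ I) :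
    (-1 : ℂ) ^ (symmDiff J {e, f} ∩ I).card = -(-1) ^ (J ∩ I).card := by
  by_cases h : e ∈ J
  · have : J ∩ I = insert e (symmDiff J {e, f} ∩ I) := by
      ext c
      simp only [mem_inter, mem_insert, mem_symmDiff, mem_singleton]
      grind
    rw [this, card_insert_of_notMem (by simp [mem_symmDiff, h]), pow_succ]
    ring
  · have : symmDiff J {e, f} ∩ I = insert e (J ∩ I) := by
      ext c
      simp only [mem_inter, mem_insert, mem_symmDiff, mem_singleton]
      grind
    rw [this, card_insert_of_notMem (by simp [h]), pow_succ]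
    ring

lemma sum_flip {S I : Finset ι} {e f : ι} (he : e ∈ I) (hf : f ∉ I) (he' : e ∈ S) (hf' : f ∈ S)
    (F : Finset ι → ℂ) (h : ∀ J, F (symmDiff J {e, f}) = F J) :
    ∑ J ∈ S.powerset, (-1) ^ (J ∩ I).card * F J = 0 := by
  refine Finset.sum_involution (fun J _ => symmDiff J {e, f}) (fun J _ => ?_) (fun J _ _ k => ?_)
    (fun J hJ => ?_) fun J _ => symmDiff_symmDiff_cancel_right _ _
  · rw [sign_flip he hf, h]
    ring
  · exact absurd (symmDiff_eq_left.1 k) (insert_nonempty _ _).ne_empty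
  · rw [mem_powerset] at hJ ⊢
    exact symmDiff_subset_union.trans (union_subset hJ (by simp [insert_subset_iff, he', hf']))

end grp

section main
variable {O H : Type} [Group O] [AddCommGroup H] [Module ℂ H] [FiniteDimensional ℂ H]
  {π : O →* End ℂ H} (G : Geo π) {g : O}

/-- the Fourier transform of the Lefschetz formula. -/
lemma fourier (h1 : SGeoL) {ι : Type} [DecidableEq ι] (χ : A ι →* O) (hg : g ^ 3 = 1)
    {S I : Finset ι} (hI : I ⊆ S) {y : A ι} (hy : Commute g (χ y))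
    (hS : ∀ J ⊆ S, Commute g (χ (epJ J))) (h4 : ∀ J, (y * epJ J) ^ 4 = 1)
    (hk : Keeps (π (χ y)) (Sec (π.comp χ) S I)) :
    2 ^ S.card * (trOn (π (χ y * g)) (Sec (π.comp χ) S I) -
      trOn (π (χ y)) (G.Φt g ⊓ Sec (π.comp χ) S I)) =
      ∑ J ∈ S.powerset, (-1) ^ (J ∩ I).card * (1 - (G.fx g (χ (y * epJ J)) : ℂ)) := by
  have hS' : ∀ a ∈ S, Commute g (χ (ep a)) := fun a ha => by
    rw [← epJ_single]
    exact hS _ (singleton_subset_iff.2 ha)
  have e1 := Sec_fourier (f := π (χ y)) (Q := G.Φt g) (π.comp χ) S I hI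
    (fun a ha => keeps_Φt G (hS' a ha)) (keeps_Φt G hy) hk
  have e2 := Sec_fourier (f := π (χ y * g)) (Q := ⊤) (π.comp χ) S I hI
    (fun _ _ _ _ => Submodule.mem_top) (fun _ _ => Submodule.mem_top) (by
      rw [map_mul]
      exact hk.mul (keeps_JE I fun a ha => (hS' a ha).map π))
  rw [top_inf_eq] at e2
  rw [mul_sub, e1, e2, ← sum_sub_distrib]
  refine sum_congr rfl fun J hJ => ?_
  have hJ' := hS J (mem_powerset.1 hJ)
  have := (h1 H O π G).2 g (χ (y * epJ J)) 3 4 (by norm_num) (by norm_num) (by norm_num) hg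
    (by rw [← map_pow, h4, map_one]) (by rw [map_mul]; exact hy.mul_right hJ')
  rw [← mul_sub, trOn_top, MonoidHom.comp_apply, ← map_mul, ← map_mul, ← map_mul, mul_assoc,
    hJ'.eq, ← mul_assoc, ← map_mul]
  congr 1
  linear_combination -this

lemma card_le (h1 : SGeoL) (hg : g ^ 3 = 1) :
    Nat.card {ω // G.ov ω = g} ≤ 2 * finrank ℂ H + 1 := by
  have := (h1 H O π G).2 g 1 3 1 (by norm_num) (by norm_num) (by norm_num) hg (by simp)
    (Commute.one_right g)
  have e : G.fx g 1 = Nat.card {ω // G.ov ω = g} :=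
    Nat.card_congr (Equiv.subtypeEquivRight fun ω => by simp)
  rw [e, trOn_scalar (c := 1) (by simp), one_mul, one_mul, ← trOn_top] at this
  have h2 := norm_trOn_le (f := π g) (Q := ⊤) (fun _ _ => Submodule.mem_top) (k := 3) (by norm_num)
    (by simp [← map_pow, hg])
  have h3 := (Complex.abs_re_le_norm _).trans h2
  have h4 := congrArg Complex.re this
  have h5 : (finrank ℂ (G.Φt g) : ℝ) ≤ finrank ℂ H := Nat.cast_le.2 (Submodule.finrank_le _)
  rw [finrank_top, abs_le] at h3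
  simp only [Complex.sub_re, Complex.natCast_re, Complex.one_re] at h4
  have : (Nat.card {ω // G.ov ω = g} : ℝ) ≤ 2 * finrank ℂ H + 1 := by linarith [h3.1]
  exact_mod_cast this

lemma conv2 (h1 : SGeoL) (h4 : SConv) {κ K : Type} [Fintype κ] [DecidableEq κ] [AddCommGroup K]
    [Module ℂ K] [FiniteDimensional ℂ K] (χ : A κ →* O) (hg : g ^ 3 = 1)
    (h : ∀ α, Commute g (χ α)) (P : Rep κ K) (hP : ∀ α, LinearMap.trace ℂ _ (P α) = G.fx g (χ α))
    (hU : ∀ c d I, c ≠ d → NC (univ \ {c, d}) I →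
      UniOn (π (χ (rh d c))) (Sec (π.comp χ) (univ \ {c, d}) I)) : Conv2 P := by
  intro c d e f hn I hI hef
  simp only [List.nodup_cons, List.mem_cons, List.not_mem_nil, or_false, not_or] at hn
  obtain ⟨⟨hcd, hce, hcf⟩, ⟨hde, hdf⟩, -⟩ := hn
  set S : Finset κ := univ \ {c, d} with hS
  have dj : Disjoint ({c, d} : Set κ) ({c, d} : Set κ)ᶜ := disjoint_compl_right
  have ce : ∀ α ∈ On ({c, d} : Set κ), ∀ a ∈ S, Commute α (ep a) := fun α hα a ha =>
    commute_On dj hα (ep_mem_On (by simpa [hS] using ha))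
  have ct : ∀ α ∈ On ({c, d} : Set κ), Commute (ta e f) α := fun α hα =>
    (commute_On dj hα (ta_mem_On (by simp [Ne.symm hce, Ne.symm hde])
      (by simp [Ne.symm hcf, Ne.symm hdf]))).symm
  have kt : ∀ {L : Type} [AddCommGroup L] [Module ℂ L] (r : Rep κ L),
      Keeps (r (ta e f)) (Sec r S I) := fun r => keeps_pm r
    (fun x => by simp only [hS, mem_sdiff, mem_insert, mem_singleton, swap_apply_def]; grind)
    fun x => by simp only [swap_apply_def]; grind
  have key : ∀ α ∈ On ({c, d} : Set κ), (∀ J, (α * ta e f * epJ J) ^ 4 = 1) →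
      2 ^ S.card * (trOn (P (α * ta e f)) (Sec P S I) +
        (trOn (π (χ α) * (π (χ (ta e f)) * π g)) (Sec (π.comp χ) S I) -
        trOn (π (χ α) * π (χ (ta e f))) (G.Φt g ⊓ Sec (π.comp χ) S I))) =
        ∑ J ∈ S.powerset, (-1) ^ (J ∩ I).card := by
    intro α hα p4
    have e1 := fourier G h1 χ hg hI.1 (h (α * ta e f)) (fun _ _ => h _) p4 (by
      rw [map_mul, map_mul]
      exact (keeps_Sec (π.comp χ) I (ce α hα)).mul (kt (π.comp χ)))
    have e2 := Sec_fourier (f := P (α * ta e f)) (Q := ⊤) P S I hI.1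
      (fun _ _ _ _ => Submodule.mem_top) (fun _ _ => Submodule.mem_top) (by
        rw [map_mul]
        exact (keeps_Sec P I (ce α hα)).mul (kt P))
    rw [top_inf_eq] at e2
    rw [map_mul χ, map_mul, map_mul, mul_assoc] at e1
    rw [mul_add, e1, e2, ← sum_add_distrib]
    refine sum_congr rfl fun J _ => ?_
    rw [trOn_top, ← map_mul, hP]
    ring
  have k1 := key (ta c d) (ta_mem_On (by simp) (by simp)) fun J => by
    have := pow_four (σ := swap c d * swap e f) (by
      ext x; simp only [Perm.mul_apply, swap_apply_def, Perm.one_apply]; grind) ∅ J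
    rwa [epJ_empty, one_mul, map_mul] at this
  have k2 := key (ep c) (ep_mem_On (by simp)) fun J => by
    have := pow_four (σ := swap e f) (swap_mul_self _ _) {c} J
    rwa [epJ_single] at this
  have kg : Keeps (π g) (Sec (π.comp χ) S I) := keeps_JE I fun a _ => (h _).map π
  have c1 := (h4 κ H (π.comp χ) c d (Sec (π.comp χ) S I) hcd
    (fun α hα => keeps_Sec _ I (ce α hα)) (hU c d I hcd hI)).1 (π (χ (ta e f)) * π g)
    ((kt (π.comp χ)).mul kg) fun α hα => (((ct α hα).map χ).map π).mul_left ((h α).map π)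
  have c2 := (h4 κ H (π.comp χ) c d (G.Φt g ⊓ Sec (π.comp χ) S I) hcd
    (fun α hα => (keeps_Φt G (h α)).inf (keeps_Sec _ I (ce α hα)))
    ((hU c d I hcd hI).mono inf_le_right)).1 (π (χ (ta e f)))
    ((keeps_Φt G (h _)).inf (kt (π.comp χ))) fun α hα => ((ct α hα).map χ).map π
  simp only [MonoidHom.comp_apply] at c1 c2
  rw [c1, c2, ← k2] at k1
  exact add_right_cancel (mul_left_cancel₀ (pow_ne_zero _ two_ne_zero) k1)

end main

end XStar

open XStar in
theorem sstar (h1 : SGeoL) (h2 : SQuad) (h3 : SOm) (h4 : SConv) : SStar := by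
  obtain ⟨N₁, h2⟩ := h2 65
  obtain ⟨N₂, h3⟩ := h3 65
  refine ⟨N₁ + N₂ + 8, fun ι O H _ _ _ _ _ _ π G ψ hn hd hU a b a' b' hab I hI => ?_⟩
  have hT : ({a, b, a', b'} : Finset ι).card = 4 := by
    have := List.toFinset_card_of_nodup hab
    simpa using this
  simp only [List.nodup_cons, List.mem_cons, List.not_mem_nil, or_false, not_or] at hab
  obtain ⟨⟨n1, n2, n3⟩, ⟨n4, n5⟩, n6, -⟩ := hab
  set T : Finset ι := {a, b, a', b'} with hT'
  set S : Finset ι := univ \ T with hS
  have cm : Commute (cc a b) (cc a' b') :=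
    commute_On (S := {a, b}) (T := {a', b'}) (by simp [n2, n3, n4, n5, Ne.symm])
      (cc_mem_On (by simp) (by simp)) (cc_mem_On (by simp) (by simp))
  set g : A ι := cc a b * cc a' b' with hg
  have g3 : ψ g ^ 3 = 1 := by rw [← map_pow, cm.mul_pow, cc_cube n1, cc_cube n6, one_mul, map_one]
  have gT : g ∈ On (T : Set ι) :=
    mul_mem (cc_mem_On (by simp [hT']) (by simp [hT'])) (cc_mem_On (by simp [hT']) (by simp [hT']))
  have dj : Disjoint (T : Set ι) (S : Set ι) := disjoint_coe.2 disjoint_sdiff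
  let f : S ↪ ι := Function.Embedding.subtype _
  have cx : ∀ α, Commute (ψ g) (ψ.comp (exA f) α) := fun α =>
    (commute_On dj gT (On_mono (by rintro _ ⟨x, rfl⟩; exact x.2) (exA_mem_On f α))).map ψ
  have : Finite {ω // G.ov ω = ψ g} :=
    ((h1 H O π G).1 _ (isOfFinOrder_iff_pow_eq_one.2 ⟨3, by norm_num, g3⟩)).1
  let _ := Fintype.ofFinite {ω // G.ov ω = ψ g}
  obtain ⟨P, p1, p2, p3⟩ := exists_rep G (ψ.comp (exA f)) cx
  have cS : Fintype.card ι = Fintype.card S + 4 := by
    rw [Fintype.card_coe, hS, card_univ_sdiff, hT]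
    omega
  have hdim : finrank ℂ ({ω // G.ov ω = ψ g} → ℂ) ≤ 65 * Fintype.card S * 2 ^ Fintype.card S := by
    rw [finrank_fintype_fun_eq_card, ← Nat.card_eq_fintype_card]
    refine (card_le G h1 g3).trans ?_
    rw [cS] at hd hn
    generalize Fintype.card S = m at hd hn
    have : 0 < 2 ^ m := by positivity
    rw [pow_add] at hd
    nlinarith [Nat.mul_le_mul_right (2 ^ m) (show 4 ≤ m by omega)]
  have q := h3 S _ P (by omega) hdim (fun c d hcd => by
    obtain ⟨k, hk, e⟩ := p2 (rh c d)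
    have u := h2 S _ P (by omega) hdim c {d} (by simp) (by simpa using hcd) (FreeGroup.of d)
      (of_mem_FS (by simp))
    rw [← rh_eq hcd] at u
    ext1 v
    rw [← sq]
    exact (u.on ⊤).eq_of_pow (fun _ _ => Submodule.mem_top) hk
      (fun w _ => by rw [← pow_mul, mul_comm, pow_mul, e, one_pow]; rfl) v Submodule.mem_top)
    (conv2 G h1 h4 _ g3 cx P p1 fun c d J hcd hJ => by
      have := (hU.1 ((univ \ {c, d}).map f) (J.map f) ⟨map_subset_map.2 hJ.1, hJ.2.1.map,
        fun e => hJ.2.2 (map_injective f e)⟩ (f d) (f c) (by simp) (by simp)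
        (f.injective.ne hcd.symm)).1
      rwa [← sec_ex, ← exA_rh] at this)
  obtain ⟨e, he⟩ := hI.2.1
  obtain ⟨e', he', hI'⟩ := exists_of_ssubset (hI.1.ssubset_of_ne hI.2.2)
  have hne : e ∉ ({e'} : Finset ι) := fun k => hI' (mem_singleton.1 k ▸ he)
  have tr : ∀ ω, G.ov ω = ψ g → G.act (ψ (epJ {e, e'})) ω = ω := by
    have := p3 _ (q ⟨e, hI.1 he⟩ ⟨e', he'⟩)
    rw [MonoidHom.comp_apply, map_mul (exA f), exA_ep, exA_ep] at this
    rwa [epJ_insert hne, epJ_single]
  have key : ∀ y ∈ On (T : Set ι), Commute g y → (∀ J, (y * epJ J) ^ 4 = 1) →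
      trOn (π.comp ψ (y * g)) (Sec (π.comp ψ) S I) =
        trOn (π (ψ y)) (G.Φt (ψ g) ⊓ Sec (π.comp ψ) S I) := by
    intro y hy c p4
    have := fourier G h1 ψ g3 hI.1 (c.map ψ)
      (fun J hJ => (commute_On dj gT (epJ_mem_On (coe_subset.2 hJ))).map ψ) p4
      (keeps_Sec (π.comp ψ) I fun x hx => commute_On dj hy (ep_mem_On hx))
    rw [sum_flip he hI' (hI.1 he) he' (fun J => 1 - (G.fx (ψ g) (ψ (y * epJ J)) : ℂ)) fun J => by
      rw [← epJ_mul, ← mul_assoc, map_mul ψ (y * epJ J), fx_mul G tr]] at this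
    rw [MonoidHom.comp_apply, map_mul]
    exact sub_eq_zero.1 ((mul_eq_zero.1 this).resolve_left (pow_ne_zero _ two_ne_zero))
  have s2 : swap a a' * swap b b' * (swap a a' * swap b b') = 1 := by
    ext x; simp only [Perm.mul_apply, swap_apply_def, Perm.one_apply]; grind
  have hh : ta a a' * ta b b' = pm (swap a a' * swap b b') := (map_mul _ _ _).symm
  have hO : ta a a' * ta b b' ∈ On (T : Set ι) :=
    mul_mem (ta_mem_On (by simp [hT']) (by simp [hT'])) (ta_mem_On (by simp [hT']) (by simp [hT']))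
  have hc : Commute g (ta a a' * ta b b') := by
    rw [hh, Commute, SemiconjBy, hg, ← mul_assoc, pm_cc, mul_assoc _ (pm _), pm_cc, ← mul_assoc,
      cm.eq]
    simp only [Perm.mul_apply, swap_apply_def]
    grind
  have k1 := key 1 (one_mem _) (Commute.one_right g) fun J => by
    simpa [epJ_empty] using pow_four (σ := 1) (one_mul _) ∅ J
  have k2 := key _ hO hc fun J => by
    have := pow_four s2 ∅ J
    rwa [epJ_empty, one_mul, ← hh] at this
  rw [one_mul, trOn_scalar (c := 1) (Q := G.Φt _ ⊓ _) (by simp), one_mul] at k1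
  rw [k1, k2, Complex.natCast_re]
  refine (Complex.re_le_norm _).trans (norm_trOn_le ((keeps_Φt G (hc.map ψ)).inf
    (keeps_Sec (π.comp ψ) I fun x hx => commute_On dj hO (ep_mem_On hx))) (k := 2) (by norm_num)
    fun v _ => ?_)
  rw [← map_pow, ← map_pow, hh, ← map_pow, sq, s2, map_one, map_one, map_one]
  rfl

end Pool.Agent.MP_3ce0a0_al.H14
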